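import Pool.Agent.Helper95_PSC.Stmts

set_option autoImplicit false

/-!
# PSC, module LatB: the contractions
-/

namespace Pool.Agent.PSC.H48

open Pool.Agent.Helper40_Pisot Pool.Agent.PSC MeasureTheory

variable {m : ℕ}

lemma bn_pr {M : Matrix (Fin (m + 1)) (Fin (m + 1)) ℤ} {r : ℝ} {α l : Fin (m + 1) → ℝ}
    (h : PFData M r α l) (n : ℕ) (v : Lat m) :
    Bn M α n (pr α v) = pr α ((M ^ n).mulVec v) := by
  obtain ⟨s, hs⟩ : ∃ s : ℝ, s = ∑ j, (v j : ℝ) := ⟨_, rfl⟩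
  funext i
  have h0 : ∑ j, ((v j : ℝ) - s * α j) = 0 := by
    rw [Finset.sum_sub_distrib, ← Finset.mul_sum, h.α_sum, mul_one, hs, sub_self]
  have h1 := Bred_mulVec M α n (fun j => (v j : ℝ) - s * α j) h0 i
  have h2 : (fun j : Fin m => (v j.castSucc : ℝ) - s * α j.castSucc) = pr α v := by
    funext j
    unfold pr
    rw [hs]
  rw [h2] at h1
  have h3 : Bn M α n (pr α v) i = (Bred M α n).mulVec (pr α v) i := rfl
  rw [h3, ← h1]
  unfold pr Bmat
  have e1 : ∀ k : Fin (m + 1), ∑ j, ((M ^ n) k j : ℝ) * ((v j : ℝ) - s * α j) =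
      (((M ^ n).mulVec v k : ℤ) : ℝ) - s * (r ^ n * α k) := by
    intro k
    have e2 : (((M ^ n).mulVec v k : ℤ) : ℝ) = ∑ j, ((M ^ n) k j : ℝ) * (v j : ℝ) := by
      unfold Matrix.mulVec dotProduct
      push_cast
      rfl
    rw [e2, ← pow_α h n k, Finset.mul_sum, ← Finset.sum_sub_distrib]
    exact Finset.sum_congr rfl fun j _ => by ring
  have e3 : ∑ j, (((M ^ n) i.castSucc j : ℝ) - (∑ t, ((M ^ n) t j : ℝ)) * α i.castSucc) *
      ((v j : ℝ) - s * α j) =
      ∑ j, ((M ^ n) i.castSucc j : ℝ) * ((v j : ℝ) - s * α j) -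
        α i.castSucc * ∑ t, ∑ j, ((M ^ n) t j : ℝ) * ((v j : ℝ) - s * α j) := by
    rw [Finset.sum_comm, Finset.mul_sum, ← Finset.sum_sub_distrib]
    refine Finset.sum_congr rfl fun j _ => ?_
    rw [← Finset.sum_mul]
    ring
  rw [e3, e1, Finset.sum_congr rfl fun t _ => e1 t, Finset.sum_sub_distrib, ← Finset.mul_sum,
    ← Finset.mul_sum, h.α_sum]
  ring

lemma ht_pow {M : Matrix (Fin (m + 1)) (Fin (m + 1)) ℤ} {r : ℝ} {α l : Fin (m + 1) → ℝ}
    (h : PFData M r α l) (n : ℕ) (v : Lat m) :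
    ht l ((M ^ n).mulVec v) = r ^ n * ht l v := by
  unfold ht
  have e2 : ∀ k, (((M ^ n).mulVec v k : ℤ) : ℝ) = ∑ j, ((M ^ n) k j : ℝ) * (v j : ℝ) := by
    intro k
    unfold Matrix.mulVec dotProduct
    push_cast
    rfl
  simp_rw [e2, Finset.mul_sum]
  rw [Finset.sum_comm]
  refine Finset.sum_congr rfl fun j _ => ?_
  rw [← mul_assoc, ← pow_l h n j, Finset.sum_mul]
  exact Finset.sum_congr rfl fun i _ => by ring

/-- the unit vectors are projections of lattice points -/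
lemma pr_unit (α : Fin (m + 1) → ℝ) (j : Fin m) :
    pr α (ee j.castSucc - ee (Fin.last m)) = Pi.single j (1 : ℝ) := by
  have hne : j.castSucc ≠ Fin.last m := (Fin.castSucc_lt_last j).ne
  funext i
  have h1 : ∑ k, (((ee j.castSucc - ee (Fin.last m) : Lat m) k : ℤ) : ℝ) = 0 := by
    unfold ee
    simp only [Pi.sub_apply, Int.cast_sub, Finset.sum_sub_distrib]
    have h2 : ∀ a : Fin (m + 1), ∑ k, (((Pi.single a (1 : ℤ) : Fin (m + 1) → ℤ) k : ℤ) : ℝ) = 1 := by
      intro a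
      rw [Finset.sum_eq_single a]
      · simp
      · intro b _ hb
        rw [Pi.single_eq_of_ne hb]
        simp
      · intro h
        exact absurd (Finset.mem_univ _) h
    rw [h2, h2, sub_self]
  unfold pr
  rw [h1, zero_mul, sub_zero]
  unfold ee
  have hne' : (i.castSucc : Fin (m + 1)) ≠ Fin.last m := (Fin.castSucc_lt_last i).ne
  rw [Pi.sub_apply, Pi.single_eq_of_ne hne', sub_zero]
  by_cases hij : i = j
  · subst hij
    simp
  · rw [Pi.single_eq_of_ne hij, Pi.single_eq_of_ne (by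
      intro h
      exact hij (Fin.castSucc_injective m h))]
    simp

lemma bn_add {M : Matrix (Fin (m + 1)) (Fin (m + 1)) ℤ} {r : ℝ} {α l : Fin (m + 1) → ℝ}
    (h : PFData M r α l) (n k : ℕ) (y : E m) :
    Bn M α (n + k) y = Bn M α n (Bn M α k y) := by
  have h1 : Bn M α (n + k) = (Bn M α n).comp (Bn M α k) := by
    apply LinearMap.pi_ext'
    intro j
    apply LinearMap.ext_ring
    show Bn M α (n + k) (Pi.single j (1 : ℝ)) = Bn M α n (Bn M α k (Pi.single j (1 : ℝ)))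
    rw [← pr_unit α j, bn_pr h, bn_pr h, bn_pr h, Matrix.mulVec_mulVec, ← pow_add]
  rw [h1]
  rfl

lemma det_ne {M : Matrix (Fin (m + 1)) (Fin (m + 1)) ℤ} {r : ℝ} {α l : Fin (m + 1) → ℝ}
    (h : PFData M r α l) (n : ℕ) : (Bred M α n).det ≠ 0 := by
  intro h0
  have h1 := det_Bred h n
  rw [h0, abs_zero, zero_mul] at h1
  exact zero_ne_one h1

lemma bn_bij {M : Matrix (Fin (m + 1)) (Fin (m + 1)) ℤ} {r : ℝ} {α l : Fin (m + 1) → ℝ}
    (h : PFData M r α l) (n : ℕ) : Function.Bijective (Bn M α n) := by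
  have h1 : IsUnit (Bred M α n) := by
    rw [Matrix.isUnit_iff_isUnit_det]
    exact isUnit_iff_ne_zero.mpr (det_ne h n)
  have h2 : Function.Injective (Bn M α n) := by
    intro y y' hy
    exact Matrix.mulVec_injective_of_isUnit h1 hy
  exact ⟨h2, LinearMap.surjective_of_injective h2⟩

lemma bn_volume {M : Matrix (Fin (m + 1)) (Fin (m + 1)) ℤ} {r : ℝ} {α l : Fin (m + 1) → ℝ}
    (h : PFData M r α l) (n : ℕ) (S : Set (E m)) :
    volume (Bn M α n '' S) = ENNReal.ofReal ((r ^ n)⁻¹) * volume S := by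
  unfold Bn
  rw [Measure.addHaar_image_linearMap, LinearMap.det_toLin']
  congr 2
  have h1 := det_Bred h n
  exact eq_inv_of_mul_eq_one_left h1

lemma bn_decay {M : Matrix (Fin (m + 1)) (Fin (m + 1)) ℤ} {r : ℝ} {α l : Fin (m + 1) → ℝ}
    (h : PFData M r α l) : ∃ C ρ : ℝ, 0 ≤ C ∧ 0 < ρ ∧ ρ < 1 ∧
      ∀ (n : ℕ) (y : E m), ‖Bn M α n y‖ ≤ C * ρ ^ n * ‖y‖ := by
  obtain ⟨C, ρ, hC, hρ, hρ1, hdec⟩ := h.decay
  refine ⟨m * (2 * C), ρ, by positivity, hρ, hρ1, fun n y => ?_⟩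
  have h0 : 0 ≤ (m : ℝ) * (2 * C) * ρ ^ n * ‖y‖ := by positivity
  rw [pi_norm_le_iff_of_nonneg h0]
  intro i
  have h1 : Bn M α n y i = ∑ j, Bred M α n i j * y j := rfl
  rw [h1, Real.norm_eq_abs]
  calc |∑ j, Bred M α n i j * y j| ≤ ∑ j, |Bred M α n i j * y j| :=
        Finset.abs_sum_le_sum_abs _ _
    _ ≤ ∑ _j : Fin m, (2 * C * ρ ^ n) * ‖y‖ := by
        refine Finset.sum_le_sum fun j _ => ?_
        rw [abs_mul]
        refine mul_le_mul ?_ (by rw [← Real.norm_eq_abs]; exact norm_le_pi_norm y j)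
          (abs_nonneg _) (by positivity)
        have e1 := hdec n i.castSucc j.castSucc
        have e2 := hdec n i.castSucc (Fin.last m)
        have e3 : Bred M α n i j = (((M ^ n) i.castSucc j.castSucc : ℝ) -
            (∑ t, ((M ^ n) t j.castSucc : ℝ)) * α i.castSucc) -
            (((M ^ n) i.castSucc (Fin.last m) : ℝ) -
            (∑ t, ((M ^ n) t (Fin.last m) : ℝ)) * α i.castSucc) := rfl
        rw [e3]
        refine (abs_sub _ _).trans ?_
        linarith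
    _ = (m : ℝ) * (2 * C) * ρ ^ n * ‖y‖ := by
        rw [Finset.sum_const, Finset.card_univ, Fintype.card_fin, nsmul_eq_mul]
        ring

theorem latB : LatBStmt := by
  intro m σ M r α l a0 x0 hD
  exact ⟨bn_pr hD.pf, ht_pow hD.pf, bn_decay hD.pf, bn_bij hD.pf, bn_add hD.pf, bn_volume hD.pf⟩

end Pool.Agent.PSC.H48
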